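import Pool.Graph.R_pool_sql_team_ae5b0c61.H82.UKw

set_option autoImplicit false

/-!
# Metrizable spaces with noncompact derived set are u-equivalent to spaces that are not k-spaces
-/

open Set Filter Topology Pool.Agent.H82.FS Pool.Agent.H82.UKw

namespace Pool.Agent.KS6_17.UE

/-- bump functions around sequences converging to the points of a closed discrete sequence -/
structure Bumps (R : Type) [TopologicalSpace R] where
  φ : ℕ → ℕ → R → ℝ
  p : ℕ → R
  p' : ℕ → ℕ → R
  cont : ∀ i n, Continuous (φ i n)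
  bd : ∀ i n t, |φ i n t| ≤ 1
  disj : ∀ i n i' n' t, φ i n t ≠ 0 → φ i' n' t ≠ 0 → i = i' ∧ n = n'
  locfin : ∀ t, ∃ U ∈ 𝓝 t, {i | ∃ n, ∃ s ∈ U, φ i n s ≠ 0}.Finite
  one : ∀ i n, φ i n (p' i n) = 1
  zero : ∀ i n j, φ i n (p j) = 0
  lim : ∀ i, Tendsto (p' i) atTop (𝓝 (p i))

section

variable {R : Type} [TopologicalSpace R] (b : Bumps R)

theorem exists_index (t : R) : ∃ q : ℕ × ℕ, ∀ i n, (i, n) ≠ q → b.φ i n t = 0 := by
  by_cases h : ∃ q : ℕ × ℕ, b.φ q.1 q.2 t ≠ 0
  · obtain ⟨q, hq⟩ := h
    refine ⟨q, fun i n hne => ?_⟩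
    by_contra hcon
    obtain ⟨h1, h2⟩ := b.disj _ _ _ _ t hcon hq
    exact hne (Prod.ext h1 h2)
  · push Not at h
    exact ⟨(0, 0), fun i n _ => h (i, n)⟩

noncomputable def idx (t : R) : ℕ × ℕ := (exists_index b t).choose

theorem idx_spec (t : R) (i n : ℕ) (h : (i, n) ≠ idx b t) : b.φ i n t = 0 :=
  (exists_index b t).choose_spec i n h

theorem idx_p' (i n : ℕ) : idx b (b.p' i n) = (i, n) := by
  by_contra h
  exact one_ne_zero ((b.one i n).symm.trans (idx_spec b _ i n (Ne.symm h)))

/-- the extension -/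
noncomputable def ext (z : ℕ → ℕ → ℝ) (t : R) : ℝ :=
  z (idx b t).1 (idx b t).2 * b.φ (idx b t).1 (idx b t).2 t

theorem ext_cont {z : ℕ → ℕ → ℝ} (hz : ∀ i, Tendsto (z i) atTop (𝓝 0)) :
    Continuous (ext b z) := by
  classical
  rw [continuous_iff_continuousAt]
  intro t
  refine continuousAt_of_locally_uniform_approx_of_continuousAt fun u hu => ?_
  obtain ⟨ε, hε, hεu⟩ := Metric.mem_uniformity_dist.1 hu
  obtain ⟨U, hU, hfin⟩ := b.locfin t
  have hz' : ∀ i, {n | ¬ |z i n| < ε}.Finite := by
    intro i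
    have := (hz i).eventually (Metric.ball_mem_nhds 0 hε)
    rw [← Nat.cofinite_eq_atTop, eventually_cofinite] at this
    refine this.subset fun n hn => ?_
    simpa [Metric.mem_ball, Real.dist_eq] using hn
  let T : Set (ℕ × ℕ) := {q | (∃ n, ∃ s ∈ U, b.φ q.1 n s ≠ 0) ∧ ¬ |z q.1 q.2| < ε}
  have hT : T.Finite := by
    refine ((hfin.biUnion fun i _ => (hz' i).image fun n => (i, n))).subset ?_
    rintro ⟨i, n⟩ ⟨h1, h2⟩
    exact mem_biUnion (show i ∈ {i | ∃ n, ∃ s ∈ U, b.φ i n s ≠ 0} from h1) ⟨n, h2, rfl⟩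
  refine ⟨U, hU, fun s => ∑ q ∈ hT.toFinset, z q.1 q.2 * b.φ q.1 q.2 s,
    (continuous_finsetSum _ fun q _ => continuous_const.mul (b.cont q.1 q.2)).continuousAt,
    fun s hs => hεu ?_⟩
  rw [Real.dist_eq]
  beta_reduce
  by_cases hq : idx b s ∈ T
  · rw [Finset.sum_eq_single (idx b s)]
    · simpa [ext] using hε
    · intro q _ hne
      rw [idx_spec b s q.1 q.2 hne, mul_zero]
    · intro h
      exact absurd (hT.mem_toFinset.2 hq) h
  · rw [Finset.sum_eq_zero, sub_zero]
    · by_cases h0 : b.φ (idx b s).1 (idx b s).2 s = 0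
      · rw [ext, h0, mul_zero, abs_zero]
        exact hε
      · have h1 : |z (idx b s).1 (idx b s).2| < ε := by
          by_contra hcon
          exact hq ⟨⟨_, s, hs, h0⟩, hcon⟩
        rw [ext, abs_mul]
        exact lt_of_le_of_lt (mul_le_of_le_one_right (abs_nonneg _) (b.bd _ _ _)) h1
    · intro q hqT
      rw [idx_spec b s q.1 q.2 fun e => hq (e ▸ hT.mem_toFinset.1 hqT), mul_zero]

include b in
theorem ue_bumps : UE (FS Z ⊕ R) R := by
  have : Infinite J := Infinite.of_injective (fun k => (⟨k, 0⟩ : J)) fun _ _ h => congrArg Sigma.fst h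
  obtain ⟨κ⟩ : Nonempty (ℕ ≃ Option J) := nonempty_equiv_of_countable
  have hp : ∀ i o, UniformContinuous fun z : ℕ → Option J → ℝ => z i o := fun i o =>
    (Pi.uniformContinuous_proj _ o).comp (Pi.uniformContinuous_proj _ i)
  let y : (ℕ → Option J → ℝ) → ℕ → J → ℝ := fun z => X fun i j => z i (some j)
  have hy : ∀ i j, UniformContinuous fun z => y z i j := fun i j => (X_uc i j).comp
    (uniformContinuous_pi.2 fun i => uniformContinuous_pi.2 fun j => hp i (some j))
  let x : (FS Z → ℝ) × (ℕ → Option J → ℝ) → ℕ → J → ℝ := fun p i j =>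
    p.1 (pt Z j) - p.1 (oo Z) + ∑ l ∈ Finset.range i, p.2 l (some j)
  have hx : ∀ i j, UniformContinuous fun p => x p i j := by
    intro i j
    refine (((Pi.uniformContinuous_proj _ (pt Z j)).comp uniformContinuous_fst).sub
      ((Pi.uniformContinuous_proj _ (oo Z)).comp uniformContinuous_fst)).add ?_
    induction i with
    | zero => simpa using uniformContinuous_const
    | succ i ih =>
      simp only [Finset.sum_range_succ]
      exact ih.add ((hp i _).comp uniformContinuous_snd)
  have hc : ∀ w : Option J → ℝ, C0 w ↔ C0 fun j => w (some j) := fun w =>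
    ⟨fun h => h.comp (Option.some_injective J).tendsto_cofinite, fun h s hs => by
      refine (((h hs : Set.Finite _).image some).insert none).subset ?_
      rintro (_ | j) hj
      · exact Or.inl rfl
      · exact Or.inr ⟨j, hj, rfl⟩⟩
  refine absorb (V := ℕ → Option J → ℝ) (fun z => ∀ i, C0 (z i))
    (fun z t => ext b (fun i n => z i (κ n)) t)
    (fun f i o => f (b.p' i (κ.symm o)) - f (b.p i))
    (fun f g h => ?_) (fun z => ?_) ?_ ?_ (fun z hz => ?_) (fun f hf i => ?_)
    (fun z o => Option.elim o 0 (y z 0) + z 0 none)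
    (fun z i o => Option.elim o (z (i + 1) none) (y z (i + 1) - y z i))
    (fun p i o => Option.elim o (Nat.casesOn i (p.1 (oo Z)) fun l => p.2 l none)
      (x p i - Γ i (x p (i + 1))))
    (fun z => ?_) (fun p => ?_) (fun p => ?_) ?_ ?_ ?_ fun z => ?_
  · ext i o
    simp only [Pi.add_apply, Pi.sub_apply]
    ring
  · ext i o
    simp only [ext, idx_p', b.one, b.zero, mul_zero, mul_one, sub_zero, Equiv.apply_symm_apply]
  · exact uniformContinuous_pi.2 fun t => (hp _ _).mul_const' _
  · exact uniformContinuous_pi.2 fun i => uniformContinuous_pi.2 fun o =>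
      (Pi.uniformContinuous_proj _ _).sub (Pi.uniformContinuous_proj _ _)
  · refine ext_cont b fun i => ?_
    have := (hz i).comp κ.injective.tendsto_cofinite
    rwa [Nat.cofinite_eq_atTop] at this
  · have h1 : Tendsto (fun n => f (b.p' i n) - f (b.p i)) atTop (𝓝 0) := by
      have := ((hf.tendsto (b.p i)).comp (b.lim i)).sub_const (f (b.p i))
      simpa using this
    rw [← Nat.cofinite_eq_atTop] at h1
    exact h1.comp κ.symm.injective.tendsto_cofinite
  · have h1 : x (fun o => Option.elim o 0 (y z 0) + z 0 none,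
        fun i o => Option.elim o (z (i + 1) none) (y z (i + 1) - y z i)) = y z := by
      ext i j
      simp only [x, pt, oo, Option.elim, Pi.sub_apply]
      rw [Finset.sum_range_sub (fun l => y z l j)]
      ring
    ext i (_ | j)
    · cases i <;> simp [oo]
    · simp only [h1]
      exact congrFun (X_eq _ i) j
  · ext (_ | j)
    · simp [oo]
    · simp only [y, Option.elim]
      rw [show (fun i j => (x p i - Γ i (x p (i + 1))) j) = _ from rfl, X_uniq]
      simp [x, pt]
  · ext i (_ | j)
    · rfl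
    · simp only [y, Option.elim]
      rw [show (fun i j => (x p i - Γ i (x p (i + 1))) j) = _ from rfl, X_uniq]
      simp [x, Finset.sum_range_succ]
  · refine uniformContinuous_pi.2 ?_
    rintro (_ | j)
    · exact uniformContinuous_const.add (hp 0 none)
    · exact (hy 0 j).add (hp 0 none)
  · refine uniformContinuous_pi.2 fun i => uniformContinuous_pi.2 ?_
    rintro (_ | j)
    · exact hp _ _
    · exact (hy _ j).sub (hy _ j)
  · refine uniformContinuous_pi.2 fun i => uniformContinuous_pi.2 ?_
    rintro (_ | j)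
    · rcases i with _ | i
      · exact (Pi.uniformContinuous_proj _ (oo Z)).comp uniformContinuous_fst
      · exact (hp i none).comp uniformContinuous_snd
    · exact (hx i j).sub (Γ_uc (hx _) i j)
  · have h1 := main (x := y z)
    simp only [y, X_eq] at h1
    simp only [hc, cont_iff, pt, oo, Option.elim, zero_add]
    rw [h1, ← Z_iff]
    refine and_congr ⟨fun h => by simpa using h.add_const (z 0 none), fun h => ?_⟩ Iff.rfl
    simpa using h.sub_const (z 0 none)

end

/-! ### Metrizable spaces -/

/-- a sequence without cluster points in a noncompact derived set -/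
theorem exists_seq {X : Type} [MetricSpace X] (h : ¬ IsCompact {x : X | (𝓝[≠] x).NeBot}) :
    ∃ p : ℕ → X, Function.Injective p ∧ (∀ i, (𝓝[≠] (p i)).NeBot) ∧
      ∀ a, ∃ ε > 0, {i | dist (p i) a < ε}.Finite := by
  rw [isCompact_iff_isSeqCompact, IsSeqCompact] at h
  push Not at h
  obtain ⟨u, huD, hu⟩ := h
  have h1 : ∀ a, ∃ ε > 0, {n | dist (u n) a < ε}.Finite := by
    intro a
    by_contra hcon
    push Not at hcon
    obtain ⟨g, hg, hgd⟩ := Filter.extraction_forall_of_frequently
      (P := fun n k => dist (u k) a < 1 / ((n : ℝ) + 1)) fun n => by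
        rw [Nat.frequently_atTop_iff_infinite]
        exact hcon _ (by positivity)
    have hlim : Tendsto (u ∘ g) atTop (𝓝 a) := by
      rw [tendsto_iff_dist_tendsto_zero]
      exact squeeze_zero (fun _ => dist_nonneg) (fun n => (hgd n).le)
        tendsto_one_div_add_atTop_nhds_zero_nat
    by_cases ha : a ∈ {x : X | (𝓝[≠] x).NeBot}
    · exact hu a ha g hg hlim
    · have ha' : IsOpen ({a} : Set X) := by
        rw [isOpen_singleton_iff_punctured_nhds]
        exact not_neBot.1 ha
      obtain ⟨n, hn⟩ := (hlim.eventually (ha'.mem_nhds rfl)).exists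
      exact ha (by
        have := huD (g n)
        rwa [show u (g n) = a from hn] at this)
  have hS : (range u).Infinite := by
    intro hS
    have h2 : (univ : Set ℕ) ⊆ ⋃ a ∈ range u, {n | u n = a} := fun n _ =>
      mem_biUnion ⟨n, rfl⟩ rfl
    refine infinite_univ ((hS.biUnion fun a _ => ?_).subset h2)
    obtain ⟨ε, hε, hfin⟩ := h1 a
    exact hfin.subset fun n hn => by
      show dist (u n) a < ε
      rw [show u n = a from hn, dist_self]
      exact hε
  let e := hS.natEmbedding
  refine ⟨fun i => (e i : X), Subtype.val_injective.comp e.injective, fun i => ?_, fun a => ?_⟩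
  · obtain ⟨n, hn⟩ := (e i).2
    show (𝓝[≠] (e i : X)).NeBot
    rw [← hn]
    exact huD n
  · obtain ⟨ε, hε, hfin⟩ := h1 a
    refine ⟨ε, hε, Finite.of_finite_image ((hfin.image u).subset ?_)
      (Subtype.val_injective.comp e.injective).injOn⟩
    rintro _ ⟨i, hi, rfl⟩
    obtain ⟨n, hn⟩ := (e i).2
    refine ⟨n, ?_, hn⟩
    show dist (u n) a < ε
    rw [hn]
    exact hi

theorem nonempty_bumps {X : Type} [MetricSpace X] (h : ¬ IsCompact {x : X | (𝓝[≠] x).NeBot}) :
    Nonempty (Bumps X) := by
  obtain ⟨p, hinj, hacc, hdis⟩ := exists_seq h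
  have h1 : ∀ i, ∃ δ > 0, ∀ j, j ≠ i → δ ≤ dist (p j) (p i) := by
    intro i
    obtain ⟨ε, hε, hfin⟩ := hdis (p i)
    have hcl : IsClosed (p '' ({j | dist (p j) (p i) < ε} \ {i})) :=
      ((hfin.subset sdiff_subset).image p).isClosed
    have hmem : (p '' ({j | dist (p j) (p i) < ε} \ {i}))ᶜ ∈ 𝓝 (p i) := by
      refine hcl.isOpen_compl.mem_nhds ?_
      rintro ⟨j, ⟨-, hj⟩, he⟩
      exact hj (hinj he)
    obtain ⟨δ, hδ, hball⟩ := Metric.mem_nhds_iff.1 hmem
    refine ⟨min ε δ, lt_min hε hδ, fun j hj => ?_⟩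
    by_contra hcon
    push Not at hcon
    exact hball (Metric.mem_ball.2 (hcon.trans_le (min_le_right _ _)))
      ⟨j, ⟨hcon.trans_le (min_le_left _ _), hj⟩, rfl⟩
  choose δ hδ hδ' using h1
  have hr : ∀ i, 0 < min (δ i) (1 / ((i : ℝ) + 1)) := fun i => lt_min (hδ i) (by positivity)
  have h2 : ∀ (i : ℕ) (η : ℝ), ∃ x, 0 < η → x ≠ p i ∧ dist x (p i) < η := by
    intro i η
    by_cases hη : 0 < η
    · obtain ⟨x, hx1, hx2⟩ := (hacc i).nonempty_of_mem
        (inter_mem_nhdsWithin {p i}ᶜ (Metric.ball_mem_nhds (p i) hη))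
      exact ⟨x, fun _ => ⟨hx1, hx2⟩⟩
    · exact ⟨p i, fun h => absurd h hη⟩
  choose f hf using h2
  let q : ℕ → ℕ → X := fun i n =>
    n.rec (f i (min (δ i) (1 / ((i : ℝ) + 1)) / 4)) fun _ x => f i (dist x (p i) / 2)
  have hqs : ∀ i n, q i (n + 1) = f i (dist (q i n) (p i) / 2) := fun i n => rfl
  have hd : ∀ i n, 0 < dist (q i n) (p i) := by
    intro i n
    induction n with
    | zero => exact dist_pos.2 (hf i _ (by have := hr i; positivity)).1
    | succ n ih =>
      rw [hqs]
      exact dist_pos.2 (hf i _ (by positivity)).1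
  have hd0 : ∀ i, dist (q i 0) (p i) < min (δ i) (1 / ((i : ℝ) + 1)) / 4 := fun i =>
    (hf i _ (by have := hr i; positivity)).2
  have hds : ∀ i n, dist (q i (n + 1)) (p i) < dist (q i n) (p i) / 2 := fun i n => by
    rw [hqs]
    exact (hf i _ (by have := hd i n; positivity)).2
  have hanti : ∀ i, Antitone fun n => dist (q i n) (p i) := fun i =>
    antitone_nat_of_succ_le fun n => by
      have := hds i n
      have := hd i n
      linarith
  have hpow : ∀ i n, dist (q i n) (p i) ≤ dist (q i 0) (p i) * (1 / 2) ^ n := by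
    intro i n
    induction n with
    | zero => simp
    | succ n ih =>
      have := hds i n
      rw [pow_succ]
      linarith
  let φ : ℕ → ℕ → X → ℝ := fun i n t => max 0 (1 - 4 * |dist t (p i) / dist (q i n) (p i) - 1|)
  have hφ : ∀ i n t, φ i n t ≠ 0 → 3 / 4 * dist (q i n) (p i) < dist t (p i) ∧
      dist t (p i) < 5 / 4 * dist (q i n) (p i) := by
    intro i n t ht
    have h3 : |dist t (p i) / dist (q i n) (p i) - 1| < 1 / 4 := by
      by_contra hcon
      exact ht (max_eq_left (by push Not at hcon; linarith))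
    obtain ⟨h4, h5⟩ := abs_lt.1 h3
    have hpos := hd i n
    constructor
    · have : 3 / 4 < dist t (p i) / dist (q i n) (p i) := by linarith
      rwa [lt_div_iff₀ hpos] at this
    · have : dist t (p i) / dist (q i n) (p i) < 5 / 4 := by linarith
      rwa [div_lt_iff₀ hpos] at this
  have hφr : ∀ i n t, φ i n t ≠ 0 → dist t (p i) < 5 / 16 * min (δ i) (1 / ((i : ℝ) + 1)) := by
    intro i n t ht
    have h3 := (hφ i n t ht).2
    have h4 := hanti i (Nat.zero_le n)
    have h5 := hd0 i
    simp only at h4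
    linarith
  refine ⟨⟨φ, p, q, fun i n => ?_, fun i n t => ?_, fun i n i' n' t ht ht' => ?_, fun t => ?_,
    fun i n => ?_, fun i n j => ?_, fun i => ?_⟩⟩
  · fun_prop
  · rw [abs_le]
    refine ⟨by have := le_max_left 0 (1 - 4 * |dist t (p i) / dist (q i n) (p i) - 1|)
               change -1 ≤ max 0 _
               linarith, max_le zero_le_one ?_⟩
    have := abs_nonneg (dist t (p i) / dist (q i n) (p i) - 1)
    linarith
  · have hii : i = i' := by
      by_contra hne
      have h3 := hφr i n t ht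
      have h4 := hφr i' n' t ht'
      have h5 := hδ' i i' (Ne.symm hne)
      have h6 := hδ' i' i hne
      have h7 := min_le_left (δ i) (1 / ((i : ℝ) + 1))
      have h8 := min_le_left (δ i') (1 / ((i' : ℝ) + 1))
      have h9 := dist_triangle (p i) t (p i')
      rw [dist_comm (p i) t] at h9
      rw [dist_comm (p i') (p i)] at h5
      have h10 := hδ i
      linarith
    subst hii
    refine ⟨rfl, ?_⟩
    obtain ⟨a1, a2⟩ := hφ i n t ht
    obtain ⟨b1, b2⟩ := hφ i n' t ht'
    rcases lt_trichotomy n n' with hlt | heq | hgt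
    · have h3 := hanti i (Nat.succ_le_of_lt hlt)
      have h4 := hds i n
      have h5 := hd i n
      simp only [Nat.succ_eq_add_one] at h3
      linarith
    · exact heq
    · have h3 := hanti i (Nat.succ_le_of_lt hgt)
      have h4 := hds i n'
      have h5 := hd i n'
      simp only [Nat.succ_eq_add_one] at h3
      linarith
  · obtain ⟨ε, hε, hfin⟩ := hdis t
    refine ⟨Metric.ball t (ε / 2), Metric.ball_mem_nhds t (by positivity), ?_⟩
    refine (hfin.union (finite_le_nat ⌈2 / ε⌉₊)).subset ?_
    rintro i ⟨n, s, hs, hne⟩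
    have h3 := hφr i n s hne
    have h4 := min_le_right (δ i) (1 / ((i : ℝ) + 1))
    by_cases h5 : 1 / ((i : ℝ) + 1) ≤ ε / 2
    · left
      show dist (p i) t < ε
      have h6 := dist_triangle (p i) s t
      rw [dist_comm (p i) s] at h6
      have h7 := Metric.mem_ball.1 hs
      have h8 := hr i
      linarith
    · right
      show i ≤ ⌈2 / ε⌉₊
      push Not at h5
      have h6 : (i : ℝ) + 1 < 2 / ε := by
        rw [lt_div_iff₀ (by positivity)] at h5
        rw [lt_div_iff₀ hε]
        linarith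
      exact_mod_cast (show (i : ℝ) ≤ ⌈2 / ε⌉₊ from (by linarith [Nat.le_ceil (2 / ε)]))
  · show max 0 (1 - 4 * |dist (q i n) (p i) / dist (q i n) (p i) - 1|) = 1
    rw [div_self (hd i n).ne']
    simp
  · by_contra hne
    by_cases hij : j = i
    · subst hij
      have := (hφ j n (p j) hne).1
      rw [dist_self] at this
      have := hd j n
      linarith
    · have h3 := hφr i n (p j) hne
      have h4 := hδ' i j hij
      have h5 := min_le_left (δ i) (1 / ((i : ℝ) + 1))
      have h6 := hδ i
      linarith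
  · rw [tendsto_iff_dist_tendsto_zero]
    have h3 : Tendsto (fun n : ℕ => dist (q i 0) (p i) * (1 / 2 : ℝ) ^ n) atTop (𝓝 0) := by
      have := (tendsto_pow_atTop_nhds_zero_of_lt_one (r := (1 / 2 : ℝ)) (by norm_num)
        (by norm_num)).const_mul (dist (q i 0) (p i))
      simpa using this
    exact squeeze_zero (fun _ => dist_nonneg) (hpow i) h3

end Pool.Agent.KS6_17.UE
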