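import Pool.Agent.KS6_17.UE.Bumps

set_option autoImplicit false

open Set Filter Topology Pool.Agent.H82.FS Pool.Agent.H82.UKw

namespace Pool.Agent.KS6_17.UE

/-- `X` and `Y` are `u`-equivalent: there is a bijection between the sets of the continuous
real-valued functions on `X` and on `Y` which is uniformly continuous in both directions, for the
uniformities of pointwise convergence. -/
def UEquivalent (X Y : Type) [TopologicalSpace X] [TopologicalSpace Y] : Prop :=
  Nonempty (UniformEquiv {f : X → ℝ // Continuous f} {g : Y → ℝ // Continuous g})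

/-- hemicompact spaces -/
def Hemicompact (X : Type) [TopologicalSpace X] : Prop :=
  ∃ K : ℕ → Set X, (∀ n, IsCompact (K n)) ∧ ∀ C : Set X, IsCompact C → ∃ n, C ⊆ K n

/-- `k`-spaces -/
def KSpace (X : Type) [TopologicalSpace X] : Prop :=
  ∀ A : Set X, (∀ C : Set X, IsCompact C → IsClosed (A ∩ C)) → IsClosed A

section

variable (X : Type) [TopologicalSpace X]

/-- a set that is not closed and has finite traces on the compact sets -/
def badSet : Set (FS Z ⊕ X) := range fun j => Sum.inl (pt Z j)

theorem badSet_not_closed : ¬ IsClosed (badSet X) := by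
  intro h
  refine Z_ne (mem_of_superset (isOpen_iff.1 (h.isOpen_compl.preimage continuous_inl) ?_)
    fun j hj => hj ⟨j, rfl⟩)
  rintro ⟨j, hj⟩
  exact pt_ne j (Sum.inl_injective hj)

theorem badSet_fin {K : Set (FS Z ⊕ X)} (hK : IsCompact K) : (badSet X ∩ K).Finite := by
  refine ((compact_finite Sigma.fst fib (fun _ => sel)
    (IsClosedEmbedding.inl.isCompact_preimage hK)).image Sum.inl).subset ?_
  rintro _ ⟨⟨j, rfl⟩, h⟩
  exact ⟨_, h, rfl⟩

theorem not_kSpace [T1Space (FS Z ⊕ X)] : ¬ KSpace (FS Z ⊕ X) := fun h =>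
  badSet_not_closed X (h _ fun _ hC => (badSet_fin X hC).isClosed)

theorem kSpace [TopologicalSpace.MetrizableSpace X] : KSpace X := by
  intro A hA
  refine IsSeqClosed.isClosed fun u x hu hx => ?_
  exact ((hA _ hx.isCompact_insert_range).mem_of_tendsto hx
    (Filter.Eventually.of_forall fun n => ⟨hu n, Or.inr ⟨n, rfl⟩⟩)).1

theorem hemicompact [LocallyCompactSpace X] [SigmaCompactSpace X] : Hemicompact X := by
  let E := CompactExhaustion.choice X
  exact ⟨E, E.isCompact, fun C hC => E.exists_superset_of_isCompact hC⟩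

theorem uEquivalent [TopologicalSpace.MetrizableSpace X]
    (h : ¬ IsCompact {x : X | (𝓝[≠] x).NeBot}) : UEquivalent X (FS Z ⊕ X) := by
  let _ := TopologicalSpace.metrizableSpaceMetric X
  obtain ⟨b⟩ := nonempty_bumps h
  obtain ⟨e⟩ := (ue_bumps b).sub
  exact ⟨e.symm⟩

end

/-- a convergent sequence with its limit -/
def KK : Set ℝ := insert 0 (range fun n : ℕ => 1 / ((n : ℝ) + 1))

theorem isCompact_KK : IsCompact KK :=
  tendsto_one_div_add_atTop_nhds_zero_nat.isCompact_insert_range

instance : CompactSpace KK := isCompact_iff_compactSpace.1 isCompact_KK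

instance : Countable KK := ((countable_range _).insert 0).to_subtype

noncomputable def pp (k : ℕ) : KK := ⟨1 / ((k : ℝ) + 1), Or.inr ⟨k, rfl⟩⟩

noncomputable def oz : KK := ⟨0, Or.inl rfl⟩

theorem not_compact_acc : ¬ IsCompact {x : ℕ × KK | (𝓝[≠] x).NeBot} := by
  intro h
  have h1 := (h.image continuous_fst).finite_of_discrete
  refine infinite_univ (h1.subset fun n _ => ⟨(n, oz), ?_, rfl⟩)
  show (𝓝[≠] (n, oz)).NeBot
  rw [← mem_closure_iff_nhdsWithin_neBot]
  have h2 : Tendsto pp atTop (𝓝 oz) :=
    tendsto_subtype_rng.2 tendsto_one_div_add_atTop_nhds_zero_nat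
  refine mem_closure_of_tendsto ((tendsto_const_nhds (x := n)).prodMk_nhds h2)
    (Eventually.of_forall fun k => ?_)
  intro he
  have h3 : ((pp k : KK) : ℝ) = (oz : KK) := congrArg Subtype.val (congrArg Prod.snd he)
  have h4 : (0 : ℝ) < 1 / ((k : ℝ) + 1) := by positivity
  exact h4.ne' h3

end Pool.Agent.KS6_17.UE
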